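import Pool.Agent.Lib.MP_0054e7_lc.Main

/-!
# A computable structure of computable dimension two with an uncountably categorical theory

There is a computable structure `A` with universe `ℕ`, in the language with countably many binary
relation symbols, whose complete theory is uncountably categorical and whose computable dimension
is exactly two.
-/

namespace Pool.Agent.Results.MP_0054e7_lc.DimensionTwo

open Pool.Agent.Dim

theorem result :
    ∃ A : ℕ → ℕ → ℕ → Prop, IsComp A ∧ UncountablyCategorical (theory A) ∧ dim A = 2 :=
  dimension_two

end Pool.Agent.Results.MP_0054e7_lc.DimensionTwo
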